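import Pool.Agent.Zk46.FD.Defs

/-!
# Palindromes divisible by a large prime factor of the base
-/

set_option autoImplicit false
set_option maxHeartbeats 400000

namespace Pool.Agent.Zk43.FD46

open Finset Pool.Agent.Zk46.FD

/-- few large prime divisors -/
lemma card_large (θ : ℝ) (hθ : 0 < θ) (b : ℕ) (hb : 2 ≤ b) (T : Finset ℕ)
    (hT : T ⊆ b.primeFactors) (hT' : ∀ p ∈ T, (b : ℝ) ^ θ ≤ p) : (T.card : ℝ) ≤ 1 / θ := by
  have hb1 : (1 : ℝ) < b := by exact_mod_cast (by omega : 1 < b)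
  have hb0 : (0 : ℝ) < b := by linarith
  have h1 : ∏ p ∈ T, p ≤ b := by
    have h2 : ∏ p ∈ T, p ∣ b :=
      (prod_dvd_prod_of_subset T b.primeFactors (fun p => p) hT).trans
        (Nat.prod_primeFactors_dvd b)
    exact Nat.le_of_dvd (by omega) h2
  have h3 : ((b : ℝ) ^ θ) ^ T.card ≤ ∏ p ∈ T, (p : ℝ) := by
    rw [← prod_const]
    apply prod_le_prod
    · intro i _
      positivity
    · intro i hi
      exact hT' i hi
  have h4 : ∏ p ∈ T, (p : ℝ) ≤ b := by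
    have : ((∏ p ∈ T, p : ℕ) : ℝ) ≤ b := by exact_mod_cast h1
    rwa [Nat.cast_prod] at this
  have h5 : (b : ℝ) ^ (θ * T.card) ≤ (b : ℝ) ^ (1 : ℝ) := by
    rw [Real.rpow_one, Real.rpow_mul hb0.le, Real.rpow_natCast]
    exact h3.trans h4
  have h6 : θ * T.card ≤ 1 := (Real.rpow_le_rpow_left_iff hb1).1 h5
  rw [le_div_iff₀ hθ]
  linarith

/-- modulo a divisor of the base, a palindrome is its first digit -/
lemma dvd_zero {b M p : ℕ} (hM : 1 ≤ M) (hp : p ∣ b) {a : Fin (M + 1) → ℕ}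
    (h : p ∣ pal b M a) : p ∣ a 0 := by
  have h1 : pal b M a = cf b M 0 * a 0 + ∑ j : Fin M, cf b M j.succ * a j.succ := by
    rw [pal, Fin.sum_univ_succ]
  have h2 : p ∣ ∑ j : Fin M, cf b M j.succ * a j.succ := by
    apply dvd_sum
    intro j _
    apply Dvd.dvd.mul_right
    unfold cf
    rw [Fin.val_succ]
    split_ifs with hj
    · exact dvd_add (hp.trans (dvd_pow_self b (by omega))) (hp.trans (dvd_pow_self b (by omega)))
    · exact hp.trans (dvd_pow_self b (by omega))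
  rw [h1] at h
  have h3 : p ∣ cf b M 0 * a 0 := (Nat.dvd_add_iff_left h2).2 h
  have h4 : cf b M 0 = 1 + b ^ (2 * M) := by
    unfold cf
    rw [Fin.val_zero, if_pos (by omega), pow_zero, Nat.sub_zero]
  rw [h4, add_mul, one_mul] at h3
  have h5 : p ∣ b ^ (2 * M) * a 0 :=
    Dvd.dvd.mul_right (hp.trans (dvd_pow_self b (by omega))) _
  exact (Nat.dvd_add_iff_left h5).2 h3

/-- the number of the digit vectors whose first digit is divisible by `p` -/
lemma card_first {b M p : ℕ} (hb : 2 ≤ b) (hp : 0 < p) :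
    (((A b M).filter fun a => p ∣ a 0).card : ℝ) ≤ (b : ℝ) / p * (b : ℝ) ^ M := by
  have h1 : (A b M).filter (fun a => p ∣ a 0) ⊆ Fintype.piFinset
      (Fin.cons ((Ioc 0 b).filter fun x => p ∣ x) (fun _ : Fin M => Ico 1 b) :
        Fin (M + 1) → Finset ℕ) := by
    intro a ha
    rw [mem_filter, A, Fintype.mem_piFinset] at ha
    rw [Fintype.mem_piFinset]
    intro j
    refine Fin.cases ?_ (fun i => ?_) j
    · rw [Fin.cons_zero, mem_filter, mem_Ioc]
      have h2 := mem_Ico.1 (ha.1 0)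
      exact ⟨⟨by omega, by omega⟩, ha.2⟩
    · rw [Fin.cons_succ]
      exact ha.1 _
  have h2 := card_le_card h1
  rw [Fintype.card_piFinset, Fin.prod_univ_succ, Fin.cons_zero, Nat.Ioc_filter_dvd_card_eq_div]
    at h2
  have h3 : ∏ i : Fin M, ((Fin.cons ((Ioc 0 b).filter fun x => p ∣ x) (fun _ : Fin M => Ico 1 b) :
        Fin (M + 1) → Finset ℕ) i.succ).card = (b - 1) ^ M := by
    simp
  rw [h3] at h2
  have h4 : b / p * (b - 1) ^ M ≤ b / p * b ^ M :=
    Nat.mul_le_mul_left _ (Nat.pow_le_pow_left (by omega) M)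
  have h5 : (((A b M).filter fun a => p ∣ a 0).card : ℝ) ≤ ((b / p : ℕ) : ℝ) * (b : ℝ) ^ M := by
    exact_mod_cast h2.trans h4
  refine h5.trans (mul_le_mul_of_nonneg_right Nat.cast_div_le (by positivity))

open Classical in
theorem t_SQ0 : S_SQ0 := by
  intro M θ hM hθ
  refine ⟨1 / θ, fun b hb => ?_⟩
  have hb1 : (1 : ℝ) < b := by exact_mod_cast (by omega : 1 < b)
  have hb0 : (0 : ℝ) < b := by linarith
  obtain ⟨T, hT⟩ : ∃ T : Finset ℕ, T = b.primeFactors.filter (fun p : ℕ => (b : ℝ) ^ θ ≤ p) := ⟨_, rfl⟩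
  have hcov : ((A b M).filter fun a => ∃ p : ℕ, p.Prime ∧ p ∣ b ∧ (b : ℝ) ^ θ ≤ p ∧
      p ∣ pal b M a) ⊆ T.biUnion fun p => (A b M).filter fun a => p ∣ a 0 := by
    intro a ha
    rw [mem_filter] at ha
    obtain ⟨ha1, p, hp, hpb, hpθ, hpa⟩ := ha
    rw [mem_biUnion]
    refine ⟨p, ?_, mem_filter.2 ⟨ha1, dvd_zero hM hpb hpa⟩⟩
    rw [hT, mem_filter]
    exact ⟨Nat.mem_primeFactors.2 ⟨hp, hpb, by omega⟩, hpθ⟩
  have h1 : (((A b M).filter fun a => ∃ p : ℕ, p.Prime ∧ p ∣ b ∧ (b : ℝ) ^ θ ≤ p ∧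
      p ∣ pal b M a).card : ℝ) ≤ ∑ p ∈ T, (((A b M).filter fun a => p ∣ a 0).card : ℝ) := by
    have h2 := (card_le_card hcov).trans card_biUnion_le
    exact_mod_cast h2
  have h2 : ∀ p ∈ T, (((A b M).filter fun a => p ∣ a 0).card : ℝ) ≤
      (b : ℝ) ^ ((M : ℝ) + 1 - θ) := by
    intro p hp
    rw [hT, mem_filter] at hp
    have hp0 : 0 < p := (Nat.prime_of_mem_primeFactors hp.1).pos
    have hpr : (0 : ℝ) < p := by exact_mod_cast hp0
    refine (card_first hb hp0).trans ?_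
    have h3 : (b : ℝ) / p ≤ (b : ℝ) / (b : ℝ) ^ θ :=
      div_le_div_of_nonneg_left hb0.le (by positivity) hp.2
    have h4 : (b : ℝ) ^ ((M : ℝ) + 1 - θ) = (b : ℝ) / (b : ℝ) ^ θ * (b : ℝ) ^ M := by
      rw [Real.rpow_sub hb0, Real.rpow_add hb0, Real.rpow_one, Real.rpow_natCast]
      ring
    rw [h4]
    exact mul_le_mul_of_nonneg_right h3 (by positivity)
  refine h1.trans ((sum_le_sum h2).trans ?_)
  rw [sum_const, nsmul_eq_mul]
  refine mul_le_mul_of_nonneg_right ?_ (by positivity)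
  apply card_large θ hθ b hb T
  · rw [hT]
    exact filter_subset _ _
  · intro p hp
    rw [hT, mem_filter] at hp
    exact hp.2

end Pool.Agent.Zk43.FD46
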